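import Mathlib
import Pool.Agent.H14.ProdInt

set_option autoImplicit false

namespace Pool.Agent.Results.MP_1adc52_al.Positive

open Pool.Agent.H14.ProdInt in
theorem result (G : Type) [Group G] [Infinite G] : ∃ A : ℕ → Set G,
    (∀ q, A (q + 1) ⊂ A q) ∧ H A = {h | 1 ≤ h ∧ h ≠ 2} ∧ H A ≠ {1} ∧ H A ≠ {h | 1 ≤ h} := by
  obtain ⟨A, h1, h2⟩ := main (G := G)
  refine ⟨A, h1, h2, ?_, ?_⟩ <;> rw [h2] <;> intro h
  · have : (3 : ℕ) ∈ ({1} : Set ℕ) := h ▸ ⟨by norm_num, by norm_num⟩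
    simp at this
  · have : (2 : ℕ) ∈ {h : ℕ | 1 ≤ h ∧ h ≠ 2} := h ▸ (by norm_num : (1 : ℕ) ≤ 2)
    exact this.2 rfl

end Pool.Agent.Results.MP_1adc52_al.Positive
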